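import Pool.Agent.N520.AN.Stm4

/-!
Project SP (helper520): groups of automorphisms of a plane which preserve a line are solvable.
-/

set_option autoImplicit false

open scoped commutatorElement

namespace Pool.Agent.N638.SP

theorem t_tri : Pool.Agent.N520.AN.S4_TRI := by
  intro V _ _ _ hV Λ l hl hΛ
  -- scalars on the line
  have hχ : ∀ A ∈ Λ, ∃ χ : ℝ, ∀ y ∈ l, A y = χ • y := by
    intro A hA
    obtain ⟨e, he0, he⟩ := finrank_eq_one_iff'.mp hl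
    obtain ⟨χ, hχ⟩ := he ⟨A e, hΛ A hA e e.2⟩
    have hχ' : χ • (e : V) = A e := congrArg Subtype.val hχ
    refine ⟨χ, fun y hy => ?_⟩
    obtain ⟨c, hc⟩ := he ⟨y, hy⟩
    have hc' : c • (e : V) = y := congrArg Subtype.val hc
    rw [← hc', map_smul, ← hχ', smul_comm]
  -- scalars on the quotient
  have hq : Module.finrank ℝ (V ⧸ l) = 1 := by
    have := Submodule.finrank_quotient_add_finrank l
    omega
  have hψ : ∀ A ∈ Λ, ∃ ψ : ℝ, ∀ y, A y - ψ • y ∈ l := by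
    intro A hA
    obtain ⟨f', hf0, hf⟩ := finrank_eq_one_iff'.mp hq
    obtain ⟨f, rfl⟩ := Submodule.mkQ_surjective l f'
    obtain ⟨ψ, hψ⟩ := hf (l.mkQ (A f))
    refine ⟨ψ, fun y => ?_⟩
    obtain ⟨c, hc⟩ := hf (l.mkQ y)
    have h1 : A f - ψ • f ∈ l := by
      rw [← Submodule.ker_mkQ l, LinearMap.mem_ker, map_sub, map_smul, hψ, sub_self]
    have h2 : y - c • f ∈ l := by
      rw [← Submodule.ker_mkQ l, LinearMap.mem_ker, map_sub, map_smul, hc, sub_self]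
    have h3 := hΛ A hA _ h2
    have h4 : A y - ψ • y = A (y - c • f) + c • (A f - ψ • f) - ψ • (y - c • f) := by
      rw [map_sub, map_smul]
      module
    rw [h4]
    exact l.sub_mem (l.add_mem h3 (l.smul_mem c h1)) (l.smul_mem ψ h2)
  have hc1 : ∀ A ∈ Λ, ∀ B ∈ Λ, ∀ y ∈ l, A (B y) = B (A y) := by
    intro A hA B hB y hy
    obtain ⟨a, ha⟩ := hχ A hA
    obtain ⟨b, hb⟩ := hχ B hB
    rw [hb y hy, ha y hy, map_smul, map_smul, ha y hy, hb y hy, smul_comm]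
  have hc2 : ∀ A ∈ Λ, ∀ B ∈ Λ, ∀ y, A (B y) - B (A y) ∈ l := by
    intro A hA B hB y
    obtain ⟨a, ha⟩ := hψ A hA
    obtain ⟨b, hb⟩ := hψ B hB
    have h1 : A (B y) - B (A y) = (A (B y - b • y) + b • (A y - a • y)) -
        (B (A y - a • y) + a • (B y - b • y)) := by
      rw [map_sub, map_smul, map_sub, map_smul]
      module
    rw [h1]
    exact l.sub_mem (l.add_mem (hΛ A hA _ (hb y)) (l.smul_mem b (ha y)))
      (l.add_mem (hΛ B hB _ (ha y)) (l.smul_mem a (hb y)))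
  -- the unipotent subgroup
  let U : Subgroup Λ :=
    { carrier := {C | (∀ y ∈ l, (C : V ≃ₗ[ℝ] V) y = y) ∧ ∀ y, (C : V ≃ₗ[ℝ] V) y - y ∈ l}
      mul_mem' := by
        rintro C D ⟨h1, h2⟩ ⟨h3, h4⟩
        refine ⟨fun y hy => ?_, fun y => ?_⟩
        · change (C : V ≃ₗ[ℝ] V) ((D : V ≃ₗ[ℝ] V) y) = y
          rw [h3 y hy, h1 y hy]
        · change (C : V ≃ₗ[ℝ] V) ((D : V ≃ₗ[ℝ] V) y) - y ∈ l
          have := l.add_mem (h2 ((D : V ≃ₗ[ℝ] V) y)) (h4 y)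
          simpa using this
      one_mem' := by
        refine ⟨fun y _ => rfl, fun y => ?_⟩
        change y - y ∈ l
        rw [sub_self]
        exact l.zero_mem
      inv_mem' := by
        rintro C ⟨h1, h2⟩
        have hinv : ∀ y, (C : V ≃ₗ[ℝ] V) (((C⁻¹ : Λ) : V ≃ₗ[ℝ] V) y) = y := fun y =>
          (C : V ≃ₗ[ℝ] V).apply_symm_apply y
        refine ⟨fun y hy => ?_, fun y => ?_⟩
        · apply (C : V ≃ₗ[ℝ] V).injective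
          rw [hinv, h1 y hy]
        · have h3 := h2 (((C⁻¹ : Λ) : V ≃ₗ[ℝ] V) y)
          rw [hinv] at h3
          have := l.neg_mem h3
          simpa using this }
  have hU : ∀ C ∈ U, (∀ y ∈ l, (C : V ≃ₗ[ℝ] V) y = y) ∧ ∀ y, (C : V ≃ₗ[ℝ] V) y - y ∈ l :=
    fun C hC => hC
  have h1 : derivedSeries Λ 1 ≤ U := by
    rw [derivedSeries_one, commutator_def, Subgroup.commutator_le]
    intro A _ B _
    have key : ∀ y : V, ∃ y' : V, ((⁅A, B⁆ : Λ) : V ≃ₗ[ℝ] V) y =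
        (A : V ≃ₗ[ℝ] V) ((B : V ≃ₗ[ℝ] V) y') ∧
        y = (B : V ≃ₗ[ℝ] V) ((A : V ≃ₗ[ℝ] V) y') ∧ (y ∈ l → y' ∈ l) := by
      intro y
      refine ⟨((A⁻¹ : Λ) : V ≃ₗ[ℝ] V) (((B⁻¹ : Λ) : V ≃ₗ[ℝ] V) y), rfl, ?_, fun hy => ?_⟩
      · have e1 : (A : V ≃ₗ[ℝ] V) (((A⁻¹ : Λ) : V ≃ₗ[ℝ] V) (((B⁻¹ : Λ) : V ≃ₗ[ℝ] V) y)) =
            ((B⁻¹ : Λ) : V ≃ₗ[ℝ] V) y := (A : V ≃ₗ[ℝ] V).apply_symm_apply _
        have e2 : (B : V ≃ₗ[ℝ] V) (((B⁻¹ : Λ) : V ≃ₗ[ℝ] V) y) = y :=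
          (B : V ≃ₗ[ℝ] V).apply_symm_apply _
        rw [e1, e2]
      · exact hΛ _ (A⁻¹ : Λ).2 _ (hΛ _ (B⁻¹ : Λ).2 _ hy)
    refine ⟨fun y hy => ?_, fun y => ?_⟩
    · obtain ⟨y', e1, e2, e3⟩ := key y
      rw [e1, hc1 A A.2 B B.2 y' (e3 hy), ← e2]
    · obtain ⟨y', e1, e2, -⟩ := key y
      rw [e1]
      rw [e2]
      exact hc2 A A.2 B B.2 y'
  refine ⟨⟨2, ?_⟩⟩
  rw [derivedSeries_succ, eq_bot_iff]
  refine (Subgroup.commutator_mono h1 h1).trans ?_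
  rw [Subgroup.commutator_le]
  intro C hC D hD
  rw [Subgroup.mem_bot, commutatorElement_eq_one_iff_mul_comm]
  obtain ⟨c1, c2⟩ := hU C hC
  obtain ⟨d1, d2⟩ := hU D hD
  apply Subtype.ext
  apply LinearEquiv.ext
  intro y
  change (C : V ≃ₗ[ℝ] V) ((D : V ≃ₗ[ℝ] V) y) = (D : V ≃ₗ[ℝ] V) ((C : V ≃ₗ[ℝ] V) y)
  have e1 : (C : V ≃ₗ[ℝ] V) ((D : V ≃ₗ[ℝ] V) y) =
      (C : V ≃ₗ[ℝ] V) y + ((D : V ≃ₗ[ℝ] V) y - y) := by
    rw [← c1 _ (d2 y), ← map_add, add_sub_cancel]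
  have e2 : (D : V ≃ₗ[ℝ] V) ((C : V ≃ₗ[ℝ] V) y) =
      (D : V ≃ₗ[ℝ] V) y + ((C : V ≃ₗ[ℝ] V) y - y) := by
    rw [← d1 _ (c2 y), ← map_add, add_sub_cancel]
  rw [e1, e2]
  abel

end Pool.Agent.N638.SP
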